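import Pool.Agent.helper55.BL.Spec

set_option autoImplicit false

namespace Pool.Agent.helper55.BL

open Finset
open scoped Classical
open Pool.Agent.helper61.BM (Clo dg)

theorem LOW : LOW_stmt := by
  intro V _ G c e hc hno
  set L : Finset V := (univ : Finset V).filter (fun v => 2 * dg G v < c) with hL
  set L1 : Finset V := L.filter (fun v => 2 * (((e.symm v : Fin (Fintype.card V)) : ℕ) + 1) < c)
    with hL1
  set L2 : Finset V := L.filter
    (fun v => ¬ 2 * (((e.symm v : Fin (Fintype.card V)) : ℕ) + 1) < c) with hL2
  have hsum : L1.card + L2.card = L.card := Finset.card_filter_add_card_filter_not _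
  have h1 : L1.card ≤ (c - 1) / 2 := by
    have : L1.card ≤ (range ((c - 1) / 2)).card := by
      refine Finset.card_le_card_of_injOn (fun v => ((e.symm v : Fin (Fintype.card V)) : ℕ)) ?_ ?_
      · intro v hv
        have hv' := (mem_filter.1 (Finset.mem_coe.1 hv)).2
        rw [Finset.mem_coe, mem_range]
        change ((e.symm v : Fin (Fintype.card V)) : ℕ) < (c - 1) / 2
        omega
      · intro a _ b _ hab
        exact e.symm.injective (Fin.ext hab)
    rwa [card_range] at this
  have hadj : ∀ v ∈ L2, ∀ w ∈ L2, v ≠ w → G.Adj v w := by
    have key : ∀ v ∈ L2, ∀ w ∈ L2, e.symm v < e.symm w → G.Adj v w := by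
      intro v hv w hw hlt
      by_contra hnadj
      refine hno ⟨e.symm v, e.symm w, hlt, ?_, ?_, ?_, ?_, ?_⟩
      · have a := (mem_filter.1 hv).2
        have b := (mem_filter.1 hw).2
        omega
      · simpa using hnadj
      · have a := (mem_filter.1 hv).2
        have b := (mem_filter.1 (mem_filter.1 hv).1).2
        rw [e.apply_symm_apply]
        omega
      · have a := (mem_filter.1 hw).2
        have b := (mem_filter.1 (mem_filter.1 hw).1).2
        rw [e.apply_symm_apply]
        omega
      · have a := (mem_filter.1 (mem_filter.1 hv).1).2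
        have b := (mem_filter.1 (mem_filter.1 hw).1).2
        rw [e.apply_symm_apply, e.apply_symm_apply]
        omega
    intro v hv w hw hne
    rcases lt_or_gt_of_ne (e.symm.injective.ne hne) with h | h
    · exact key v hv w hw h
    · exact (key w hw v hv h).symm
  have h2 : L2.card ≤ (c + 1) / 2 := by
    rcases L2.eq_empty_or_nonempty with h0 | ⟨v, hv⟩
    · rw [h0, card_empty]; omega
    · have hsub : L2.erase v ⊆ (univ : Finset V).filter (fun w => G.Adj v w) := by
        intro w hw
        rw [mem_erase] at hw
        exact mem_filter.2 ⟨mem_univ _, hadj v hv w hw.2 hw.1.symm⟩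
      have hcard := Finset.card_le_card hsub
      rw [Finset.card_erase_of_mem hv] at hcard
      have hdg : ((univ : Finset V).filter (fun w => G.Adj v w)).card = dg G v := rfl
      have b := (mem_filter.1 (mem_filter.1 hv).1).2
      omega
  omega

end Pool.Agent.helper55.BL
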